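import Pool.Agent.H5.OR.Targets3

/-!
# MP_e1fd52_al, board ors_modules: row HK
-/

set_option autoImplicit false

open scoped Classical

namespace Pool.Agent.H16.ORS

open ORg

theorem perm_refl (τ : Bool ≃ Bool) (i : Bool) (h : τ i = i) : τ = Equiv.refl Bool := by
  have hinj := τ.injective
  ext x
  by_cases hx : x = i
  · subst hx
    exact h
  · have h1 : τ x ≠ i := fun h2 => hx (hinj (by rw [h2, h]))
    have h2 : τ x = !i := Bool.eq_not_of_ne h1
    have h3 : x = !i := Bool.eq_not_of_ne hx
    rw [Equiv.refl_apply, h2, ← h3]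

theorem perm_swap (τ : Bool ≃ Bool) (i : Bool) (h : τ i ≠ i) :
    τ = Equiv.swap true false := by
  have h1 : τ i = !i := Bool.eq_not_of_ne h
  have h2 : τ (!i) = i := by
    have h3 : τ (!i) ≠ !i := fun h4 => by
      have h5 := τ.injective (h4.trans h1.symm)
      cases i <;> cases h5
    cases hi : τ (!i) <;> cases i <;> simp_all
  ext x
  cases i <;> cases x
  · simpa using h1
  · simpa using h2
  · simpa using h2
  · simpa using h1

/-- the relation of congruence modulo the commutator subgroup -/
theorem of_eq {P : Type} [Group P] (x y : P) :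
    x * y⁻¹ ∈ commutator P ↔ Abelianization.of x = Abelianization.of y := by
  rw [← Abelianization.ker_of P, MonoidHom.mem_ker, map_mul, map_inv, mul_inv_eq_one]

theorem of_conj {P : Type} [Group P] (g y : P) :
    Abelianization.of (g * y * g⁻¹) = Abelianization.of y := by
  rw [map_mul, map_mul, map_inv, mul_comm, ← mul_assoc, inv_mul_cancel, one_mul]

/-- the coordinates in the abelianization -/
theorem coord (KT : T_KT) (k : ℕ) (p q : ℤ) (i j i' j' : ℤ)
    (h : (Abelianization.of (kg true : KP k p q)) ^ i * Abelianization.of (kg false) ^ j =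
      Abelianization.of (kg true : KP k p q) ^ i' * Abelianization.of (kg false) ^ j') :
    i = i' := by
  have h1 : (kg true : KP k p q) ^ (i - i') * kg false ^ (j - j') ∈ commutator (KP k p q) := by
    rw [← Abelianization.ker_of (KP k p q), MonoidHom.mem_ker, map_mul, map_zpow, map_zpow,
      zpow_sub, zpow_sub, mul_mul_mul_comm, h, ← mul_inv, mul_inv_cancel]
  have h2 := ((KT k p q).2 _ _).1 h1
  omega

theorem pm_abs (p p' : ℤ) (h : |p| = |p'|) : pm p p p' p' := by
  rcases abs_eq_abs.1 h with h1 | h1
  · left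
    exact ⟨h1.symm, h1.symm⟩
  · right
    constructor <;> omega

theorem pf_HK (KT : T_KT) (KZ : T_KZ) (KX : T_KX) (KY : T_KY) : T_HK := by
  intro k p q k' p' q' N N' σ e β hk hp hq hk' hp' hq' he h
  by_cases hpq : p = q
  · subst hpq
    have hpq' : p' = q' := by
      by_contra hne
      exact (KZ k' p' q' k p p β.symm hne).1 rfl
    subst hpq'
    obtain ⟨Y1, Y2⟩ := KY k p k' p' β hk hp hk' hp'
    by_cases hN : ∃ i, N i
    · obtain ⟨i, hi⟩ := hN
      obtain ⟨g, hg⟩ := h ⟨i, hi⟩
      obtain ⟨Y3, Y4⟩ := Y2 i (σ ⟨i, hi⟩) g (e i) (he i) hg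
      obtain ⟨τ, hτ⟩ : ∃ τ, τ = σ.extendSubtype := ⟨_, rfl⟩
      have hτi : τ i = σ ⟨i, hi⟩ := by
        rw [hτ]
        exact σ.extendSubtype_apply_of_mem i hi
      refine ⟨τ, e, he, ?_, ?_, ?_⟩
      · rintro ⟨x, hx⟩
        refine ⟨?_, rfl⟩
        rw [hτ]
        exact σ.extendSubtype_apply_of_mem x hx
      · intro x
        constructor
        · intro hx
          rw [hτ]
          exact σ.extendSubtype_mem x hx
        · intro hx
          by_contra hc
          rw [hτ] at hx
          exact σ.extendSubtype_not_mem x hc hx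
      · by_cases hji : i = σ ⟨i, hi⟩
        · left
          obtain ⟨a, b⟩ := Y3 hji
          refine ⟨perm_refl τ i (by rw [hτi, ← hji]), a, ?_⟩
          rcases he true with h1 | h1
          · left
            exact ⟨h1, pm_abs p p' b⟩
          · right
            exact ⟨h1, pm_abs p p' b⟩
        · right
          obtain ⟨a, b⟩ := Y4 hji
          exact ⟨perm_swap τ i (by rw [hτi]; exact fun h => hji h.symm), rfl, rfl, b, a.symm⟩
    · have hN1 : ∀ i, ¬ N i := fun i hi => hN ⟨i, hi⟩
      have hN2 : ∀ i, ¬ N' i := fun i hi => hN1 _ (σ.symm ⟨i, hi⟩).2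
      rcases Y1 with ⟨a, b⟩ | ⟨a, b⟩
      · refine ⟨Equiv.refl Bool, e, he, ?_, ?_, ?_⟩
        · rintro ⟨x, hx⟩
          exact absurd hx (hN1 x)
        · intro x
          exact ⟨fun hx => absurd hx (hN1 _), fun hx => absurd hx (hN2 _)⟩
        · left
          refine ⟨rfl, a, ?_⟩
          rcases he true with h1 | h1
          · left
            exact ⟨h1, pm_abs p p' b⟩
          · right
            exact ⟨h1, pm_abs p p' b⟩
      · refine ⟨Equiv.swap true false, e, he, ?_, ?_, ?_⟩
        · rintro ⟨x, hx⟩
          exact absurd hx (hN1 x)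
        · intro x
          exact ⟨fun hx => absurd hx (hN1 _), fun hx => absurd hx (hN2 _)⟩
        · right
          exact ⟨rfl, rfl, rfl, b, a.symm⟩
  · obtain ⟨hpq', hkk, ε, ⟨j0, hj0⟩, ⟨i0, hi0⟩, alt⟩ := KX k p q k' p' q' β hk hp hq hk' hp' hq' hpq
    have hε : ε = 1 ∨ ε = -1 := by
      rcases alt with h | h
      · exact Or.inl h.1
      · exact Or.inr h.1
    rw [of_eq, map_mul, map_zpow, map_zpow] at hj0
    rw [of_eq, map_zpow] at hi0
    -- the permutation preserves the letters
    have key : ∀ (i : Bool) (hi : N i), (σ ⟨i, hi⟩ : Bool) = i ∧ (i = true → e true = ε) := by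
      intro i hi
      obtain ⟨g, hg⟩ := h ⟨i, hi⟩
      have h1 : Abelianization.of (β (kg i)) =
          Abelianization.of (kg (σ ⟨i, hi⟩)) ^ e i := by
        rw [hg, of_conj, map_zpow]
      obtain ⟨j, hj⟩ : ∃ j, j = (σ ⟨i, hi⟩ : Bool) := ⟨_, rfl⟩
      rw [← hj] at h1 ⊢
      have hne : e i ≠ 0 := by
        rcases he i with h | h <;> rw [h] <;> norm_num
      rcases i with _ | _ <;> rcases j with _ | _
      · exact ⟨rfl, fun h => absurd h (by simp)⟩
      · exfalso
        rw [hi0] at h1
        have h2 := coord KT k' p' q' 0 i0 (e false) 0 (by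
          rw [zpow_zero, one_mul, h1, zpow_zero, mul_one])
        exact hne h2.symm
      · exfalso
        rw [hj0] at h1
        have h2 := coord KT k' p' q' ε j0 0 (e true) (by
          rw [h1, zpow_zero, one_mul])
        rcases hε with h | h <;> omega
      · rw [hj0] at h1
        have h2 := coord KT k' p' q' ε j0 (e true) 0 (by
          rw [h1, zpow_zero, mul_one])
        exact ⟨rfl, fun _ => h2.symm⟩
    refine ⟨Equiv.refl Bool, fun i => if i = true then ε else e false, ?_, ?_, ?_, ?_⟩
    · intro i
      by_cases hi : i = true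
      · simp only [hi, if_true]
        exact hε
      · simp only [if_neg hi]
        exact he false
    · rintro ⟨x, hx⟩
      obtain ⟨h1, h2⟩ := key x hx
      refine ⟨h1.symm, ?_⟩
      rcases x with _ | _
      · rfl
      · exact (h2 rfl).symm
    · intro x
      constructor
      · intro hx
        have h1 := (σ ⟨x, hx⟩).2
        rw [(key x hx).1] at h1
        exact h1
      · intro hx
        have hx : N' x := hx
        obtain ⟨y, hy⟩ : ∃ y, y = σ.symm ⟨x, hx⟩ := ⟨_, rfl⟩
        have h1 := (key y.1 y.2).1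
        have h2 : σ y = ⟨x, hx⟩ := by
          rw [hy, Equiv.apply_symm_apply]
        have h3 : (σ ⟨y.1, y.2⟩ : Bool) = x := congrArg Subtype.val h2
        rw [h3] at h1
        rw [h1]
        exact y.2
    · left
      exact ⟨rfl, hkk, alt⟩

end Pool.Agent.H16.ORS
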