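import Pool.Agent.H5.OR.All
import Pool.Agent.H5.OR.Targets3

/-!
# MP_e1fd52_al, board ors_modules: row HO
-/

set_option autoImplicit false

open scoped Classical

namespace Pool.Agent.H16.ORS

open ORg

/-- the hypotheses of the theorem on several words, for the relators in normal form -/
theorem hy_of (MP : T_MP) (KS : T_KS) (X Z : Bool → Type) (hX : ∀ i, Finite (X i))
    (w : ∀ i, FreeGroup (X i)) (k : ℕ) (p q : ℤ) (hk : 0 < k) (hp : p ≠ 0) (hq : q ≠ 0)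
    (hr : ∀ i, Root (w i)) (hl : ∀ i, (Wh (w i) ∧ Nontrivial (X i)) ∨ Subsingleton (X i)) :
    ∃ (iF : ∀ i, FreeGroup (X i ⊕ Z i) →*
        OR (subW (X := fun i => X i ⊕ Z i) (fun i => fl (w i)) (relK k p q)))
      (iP : KP k p q →* OR (subW (X := fun i => X i ⊕ Z i) (fun i => fl (w i)) (relK k p q))),
      Hy w (fun i => (kg i : KP k p q)) iF iP := by
  have h := MP Bool Empty (fun i => X i ⊕ Z i) (fun i => fl (w i)) {relK k p q}
  rw [Set.image_singleton] at h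
  obtain ⟨iF, iP, hst⟩ := h
  exact ⟨iF, iP, ⟨⟨true⟩, hst, hr, hl, hX, All.KA.1 _ (KS k p q hk hp hq).1,
    (KS k p q hk hp hq).2⟩⟩

theorem pf_HO (MP : T_MP) (M9 : T_M9) (KS : T_KS) (HK : T_HK) (LO : T_LO) (HE : T_HE) :
    T_HO := by
  intro X Z X' Z' hX hZ hX' hZ' w w' k p q k' p' q' hk hp hq hk' hp' hq' hr hl hr' hl' hiso
  obtain ⟨iF, iP, hy⟩ := hy_of MP KS X Z hX w k p q hk hp hq hr hl
  obtain ⟨iF', iP', hy'⟩ := hy_of MP KS X' Z' hX' w' k' p' q' hk' hp' hq' hr' hl'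
  obtain ⟨⟨γ⟩, σ, β, hβ⟩ := M9 _ _ _ _ _ _ _ _ _ _ _ _ _ _ _ _ _ _ hy hy' hiso
  have h1 : ∀ i : Bool, ∃ e : ℤ, (e = 1 ∨ e = -1) ∧ ∀ hi : Nontrivial (X i),
      (∃ α : FreeGroup (X i) ≃* FreeGroup (X' (σ ⟨i, hi⟩)),
        α (w i) = w' (σ ⟨i, hi⟩) ^ e) ∧
      ∃ g : KP k' p' q', β (kg i) = g * kg (σ ⟨i, hi⟩) ^ e * g⁻¹ := by
    intro i
    by_cases hi : Nontrivial (X i)
    · obtain ⟨α, g, h | h⟩ := hβ ⟨i, hi⟩
      · refine ⟨1, Or.inl rfl, fun _ => ⟨⟨α, ?_⟩, g, ?_⟩⟩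
        · rw [zpow_one]
          exact h.1
        · rw [zpow_one]
          exact h.2
      · refine ⟨-1, Or.inr rfl, fun _ => ⟨⟨α, ?_⟩, g, ?_⟩⟩
        · rw [zpow_neg, zpow_one]
          exact h.1
        · rw [zpow_neg, zpow_one]
          exact h.2
    · exact ⟨1, Or.inl rfl, fun h => absurd h hi⟩
  choose e he h2 using h1
  obtain ⟨τ, e', he', h3, h4, hEx⟩ := HK k p q k' p' q' (fun i => Nontrivial (X i))
    (fun i => Nontrivial (X' i)) σ e β hk hp hq hk' hp' hq' he (fun i => (h2 i.1 i.2).2)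
  refine HE X Z X' Z' w w' k p q k' p' q' τ e' ⟨Equiv.ofFreeGroupEquiv γ⟩ he' ?_ hEx
  intro i
  by_cases hi : Nontrivial (X i)
  · obtain ⟨h5, h6⟩ := h3 ⟨i, hi⟩
    have h7 := (h2 i hi).1
    have h5' : τ i = σ ⟨i, hi⟩ := h5
    have h6' : e' i = e i := h6
    rw [h5', h6']
    exact h7
  · have hs : Subsingleton (X i) := by
      rcases hl i with h | h
      · exact absurd h.2 hi
      · exact h
    have hs' : Subsingleton (X' (τ i)) := by
      rcases hl' (τ i) with h | h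
      · exact absurd ((h4 i).2 h.2) hi
      · exact h
    exact LO (X i) (X' (τ i)) (w i) (w' (τ i)) (e' i) (hr i) (hr' (τ i)) (he' i)

end Pool.Agent.H16.ORS
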