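import Pool.Agent.H16.ORS.KY

/-!
# MP_e1fd52_al, board ors_modules: row KX
-/

set_option autoImplicit false

open scoped Classical

namespace Pool.Agent.H16.ORS

open ORg

/-- the character which maps `x` to `z` and `a` to `1` -/
theorem exists_char (KH : T_KH) (k : ℕ) (p q : ℤ) (z : ℂˣ) :
    ∃ f : KP k p q →* ℂˣ, f (kg true) = z ∧ f (kg false) = 1 := by
  refine (KH k p q).2.1 ℂˣ z 1 ?_
  rw [one_zpow, one_zpow, mul_one, mul_inv_cancel]

/-- `Jmp` for these characters -/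
theorem jmp_char (KJ : T_KJ) (k : ℕ) (p q : ℤ) (hk : 0 < k) (hp : p ≠ 0) (hq : q ≠ 0)
    (z : ℂˣ) (hz : z ≠ 1) (f : KP k p q →* ℂˣ) (h1 : f (kg true) = z) (h2 : f (kg false) = 1) :
    Jmp f ↔ (z : ℂ) ^ k * p = q := by
  have hf : f ≠ 1 := by
    rintro rfl
    exact hz (by rw [← h1]; rfl)
  rw [KJ k p q f hk hp hq hf, h1, h2]
  constructor
  · rintro (h | h)
    · exact h.2
    · exact absurd rfl h.1
  · intro h
    exact Or.inl ⟨rfl, h⟩

/-- homomorphisms to abelian groups kill commutators -/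
theorem map_comm {P A : Type} [Group P] [CommGroup A] (f : P →* A) (x y : P)
    (h : x * y⁻¹ ∈ commutator P) : f x = f y := by
  have h1 : f (x * y⁻¹) = 1 := Abelianization.commutator_subset_ker f h
  rw [map_mul, map_inv, mul_inv_eq_one] at h1
  exact h1

/-- the main equivalence -/
theorem root_iff (KH : T_KH) (KJ : T_KJ) (k : ℕ) (p q : ℤ) (k' : ℕ) (p' q' : ℤ)
    (β : KP k p q ≃* KP k' p' q') (hk : 0 < k) (hp : p ≠ 0) (hq : q ≠ 0) (hk' : 0 < k')
    (hp' : p' ≠ 0) (hq' : q' ≠ 0) (hpq : p ≠ q) (hpq' : p' ≠ q') (ε i j : ℤ)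
    (hε : ε = 1 ∨ ε = -1)
    (hj : β (kg true) * (kg true ^ ε * kg false ^ j)⁻¹ ∈ commutator (KP k' p' q'))
    (hi : β (kg false) * (kg false ^ i)⁻¹ ∈ commutator (KP k' p' q')) (z : ℂˣ) :
    (z : ℂ) ^ k' * p' = q' ↔ ((z ^ ε : ℂˣ) : ℂ) ^ k * p = q := by
  by_cases hz : z = 1
  · subst hz
    rw [one_zpow, Units.val_one, one_pow, one_pow, one_mul, one_mul]
    constructor
    · intro h
      exact absurd (by exact_mod_cast h) hpq'
    · intro h
      exact absurd (by exact_mod_cast h) hpq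
  have hz' : z ^ ε ≠ 1 := by
    rcases hε with rfl | rfl
    · rwa [zpow_one]
    · rwa [zpow_neg, zpow_one, Ne, inv_eq_one]
  obtain ⟨f, f1, f2⟩ := exists_char KH k' p' q' z
  rw [← jmp_char KJ k' p' q' hk' hp' hq' z hz f f1 f2, ← jmp_comp β f]
  refine jmp_char KJ k p q hk hp hq _ hz' _ ?_ ?_
  · show f (β (kg true)) = _
    rw [map_comm f _ _ hj, map_mul, map_zpow, map_zpow, f1, f2, one_zpow, mul_one]
  · show f (β (kg false)) = _
    rw [map_comm f _ _ hi, map_zpow, f2, one_zpow]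

/-- a solution of `z^k p = q` -/
theorem exists_root (k : ℕ) (p q : ℤ) (hk : 0 < k) (hp : p ≠ 0) (hq : q ≠ 0) :
    ∃ z : ℂˣ, (z : ℂ) ^ k * p = q := by
  have hp0 : (p : ℂ) ≠ 0 := by exact_mod_cast hp
  have hq0 : (q : ℂ) ≠ 0 := by exact_mod_cast hq
  obtain ⟨z, hz⟩ := IsAlgClosed.exists_pow_nat_eq ((q : ℂ) / p) hk
  have hz0 : z ≠ 0 := by
    rintro rfl
    rw [zero_pow hk.ne'] at hz
    exact div_ne_zero hq0 hp0 hz.symm
  refine ⟨Units.mk0 z hz0, ?_⟩
  rw [Units.val_mk0, hz, div_mul_cancel₀ _ hp0]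

/-- the divisibility -/
theorem dvd_of_root (k k' : ℕ) (p q p' q' : ℤ) (hk' : 0 < k') (hp : p ≠ 0) (hq : q ≠ 0)
    (ε : ℤ) (hε : ε = 1 ∨ ε = -1) (z : ℂˣ) (hz : (z : ℂ) ^ k' * p' = q')
    (H : ∀ z : ℂˣ, (z : ℂ) ^ k' * p' = q' → ((z ^ ε : ℂˣ) : ℂ) ^ k * p = q) : k' ∣ k := by
  have hp0 : (p : ℂ) ≠ 0 := by exact_mod_cast hp
  have hq0 : (q : ℂ) ≠ 0 := by exact_mod_cast hq
  have hom := Complex.isPrimitiveRoot_exp k' hk'.ne'
  obtain ⟨w, hw⟩ : ∃ w, w = Complex.exp (2 * Real.pi * Complex.I / k') := ⟨_, rfl⟩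
  rw [← hw] at hom
  have hw0 : w ≠ 0 := by
    rw [hw]
    exact Complex.exp_ne_zero _
  have h1 := H z hz
  have h2 := H (z * Units.mk0 w hw0) (by
    rw [Units.val_mul, Units.val_mk0, mul_pow, hom.pow_eq_one, mul_one]
    exact hz)
  rw [mul_zpow, Units.val_mul, mul_pow] at h2
  have h3 : (((Units.mk0 w hw0) ^ ε : ℂˣ) : ℂ) ^ k = 1 := by
    have h4 : (((z ^ ε : ℂˣ) : ℂ) ^ k * p) * (((Units.mk0 w hw0) ^ ε : ℂˣ) : ℂ) ^ k =
        ((z ^ ε : ℂˣ) : ℂ) ^ k * p := by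
      rw [h1]
      linear_combination h2 - (((Units.mk0 w hw0) ^ ε : ℂˣ) : ℂ) ^ k * h1
    rw [h1] at h4
    exact mul_left_cancel₀ hq0 (by rw [h4, mul_one])
  apply hom.dvd_of_pow_eq_one
  rcases hε with rfl | rfl
  · rw [zpow_one, Units.val_mk0] at h3
    exact h3
  · rw [zpow_neg, zpow_one, Units.val_inv_eq_inv_val, Units.val_mk0, inv_pow, inv_eq_one] at h3
    exact h3

theorem pf_KX (KH : T_KH) (KT : T_KT) (KJ : T_KJ) (KZ : T_KZ) : T_KX := by
  intro k p q k' p' q' β hk hp hq hk' hp' hq' hpq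
  obtain ⟨hpq', hd1, ε, hε, ⟨j, hj⟩, ⟨i, hi⟩⟩ := KZ k p q k' p' q' β hpq
  obtain ⟨-, hd2, -⟩ := KZ k' p' q' k p q β.symm hpq'
  have hR := root_iff KH KJ k p q k' p' q' β hk hp hq hk' hp' hq' hpq hpq' ε i j hε hj hi
  have hee : ε * ε = 1 := by
    rcases hε with rfl | rfl <;> norm_num
  have hR' : ∀ z : ℂˣ, (z : ℂ) ^ k * p = q → ((z ^ ε : ℂˣ) : ℂ) ^ k' * p' = q' := by
    intro z hz
    rw [hR, ← zpow_mul, hee, zpow_one]
    exact hz
  obtain ⟨z0, hz0⟩ := exists_root k' p' q' hk' hp' hq'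
  obtain ⟨z1, hz1⟩ := exists_root k p q hk hp hq
  have hk1 : k' ∣ k := dvd_of_root k k' p q p' q' hk' hp hq ε hε z0 hz0 fun z h => (hR z).1 h
  have hk2 : k ∣ k' := dvd_of_root k' k p' q' p q hk hp' hq' ε hε z1 hz1 hR'
  have hkk : k = k' := Nat.dvd_antisymm hk2 hk1
  subst hkk
  refine ⟨hpq', rfl, ε, ⟨j, hj⟩, ⟨i, hi⟩, ?_⟩
  have habs : p' - q' = p - q ∨ p' - q' = -(p - q) := by
    have := Int.natAbs_eq_natAbs_iff.1 (Nat.dvd_antisymm (Int.natAbs_dvd_natAbs.2 hd2)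
      (Int.natAbs_dvd_natAbs.2 hd1))
    exact this
  have hne : p - q ≠ 0 := sub_ne_zero.2 hpq
  have h5 := (hR z0).1 hz0
  have hz00 : ((z0 : ℂˣ) : ℂ) ^ k ≠ 0 := pow_ne_zero _ z0.ne_zero
  rcases hε with rfl | rfl
  · left
    refine ⟨rfl, ?_⟩
    rw [zpow_one] at h5
    have h6 : (q' : ℂ) * p = q * p' := by
      rw [← h5, ← hz0]
      ring
    have h3 : q' * p = q * p' := by exact_mod_cast h6
    rcases habs with h4 | h4
    · left
      have h5 : p' = p := by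
        apply mul_right_cancel₀ hne
        linear_combination h3 + p * h4
      exact ⟨h5, by linarith⟩
    · right
      have h5 : p' = -p := by
        apply mul_right_cancel₀ hne
        linear_combination h3 + p * h4
      exact ⟨h5, by linarith⟩
  · right
    refine ⟨rfl, ?_⟩
    rw [zpow_neg, zpow_one, Units.val_inv_eq_inv_val, inv_pow] at h5
    have h6 : (q' : ℂ) * q = p * p' := by
      rw [← h5, ← hz0]
      field_simp
    have h3 : q' * q = p * p' := by exact_mod_cast h6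
    rcases habs with h4 | h4
    · right
      have h5 : q' = -p := by
        apply mul_right_cancel₀ hne
        linear_combination -h3 - p * h4
      exact ⟨by linarith, h5⟩
    · left
      have h5 : q' = p := by
        apply mul_right_cancel₀ hne
        linear_combination -h3 - p * h4
      exact ⟨by linarith, h5⟩

end Pool.Agent.H16.ORS
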