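import Pool.Agent.H5.OR.Targets3

/-!
# MP_e1fd52_al, board ors_modules: row KY
-/

set_option autoImplicit false

open scoped Classical

namespace Pool.Agent.H16.ORS

open ORg

/-- the property `Jmp` is invariant under isomorphisms -/
theorem jmp_comp {P P' : Type} [Group P] [Group P'] (β : P ≃* P') (ρ : P' →* ℂˣ) :
    Jmp (ρ.comp β.toMonoidHom) ↔ Jmp ρ := by
  constructor
  · rintro ⟨c, hc, hn⟩
    refine ⟨fun g => c (β.symm g), ?_, ?_⟩
    · intro g h
      have h1 := hc (β.symm g) (β.symm h)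
      simp only [MonoidHom.comp_apply, MulEquiv.coe_toMonoidHom,
        MulEquiv.apply_symm_apply] at h1
      show c (β.symm (g * h)) = _
      rw [map_mul, h1]
    · rintro ⟨l, hl⟩
      refine hn ⟨l, fun g => ?_⟩
      have h1 := hl (β g)
      simp only [MulEquiv.symm_apply_apply] at h1
      exact h1
  · rintro ⟨c, hc, hn⟩
    refine ⟨fun g => c (β g), ?_, ?_⟩
    · intro g h
      show c (β (g * h)) = _
      rw [map_mul, hc]
      rfl
    · rintro ⟨l, hl⟩
      refine hn ⟨l, fun g => ?_⟩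
      have h1 := hl (β.symm g)
      simp only [MonoidHom.comp_apply, MulEquiv.coe_toMonoidHom,
        MulEquiv.apply_symm_apply] at h1
      exact h1

/-- the bijection between the characters -/
def chE {P P' : Type} [Group P] [Group P'] (β : P ≃* P') : (P' →* ℂˣ) ≃ (P →* ℂˣ) where
  toFun ρ := ρ.comp β.toMonoidHom
  invFun ρ := ρ.comp β.symm.toMonoidHom
  left_inv ρ := by
    ext g
    simp
  right_inv ρ := by
    ext g
    simp

theorem chE_apply {P P' : Type} [Group P] [Group P'] (β : P ≃* P') (ρ : P' →* ℂˣ) (g : P) :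
    chE β ρ g = ρ (β g) := rfl

theorem chE_one {P P' : Type} [Group P] [Group P'] (β : P ≃* P') (ρ : P' →* ℂˣ) :
    chE β ρ = 1 ↔ ρ = 1 := by
  constructor
  · intro h
    ext g
    have h1 := DFunLike.congr_fun h (β.symm g)
    rw [chE_apply, MulEquiv.apply_symm_apply] at h1
    rw [h1]
    rfl
  · rintro rfl
    rfl

theorem chE_pow {P P' : Type} [Group P] [Group P'] (β : P ≃* P') (ρ : P' →* ℂˣ) (N : ℕ) :
    chE β ρ ^ N = 1 ↔ ρ ^ N = 1 := by
  rw [← chE_one β (ρ ^ N)]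
  rfl

theorem chE_jmp {P P' : Type} [Group P] [Group P'] (β : P ≃* P') (ρ : P' →* ℂˣ) :
    Jmp (chE β ρ) ↔ Jmp ρ := jmp_comp β ρ

/-- the value at a conjugate -/
theorem chE_conj {P P' : Type} [Group P] [Group P'] (β : P ≃* P') (ρ : P' →* ℂˣ) (a : P)
    (b g : P') (e : ℤ) (he : e = 1 ∨ e = -1) (h : β a = g * b ^ e * g⁻¹) :
    chE β ρ a = 1 ↔ ρ b = 1 := by
  have h1 : ρ (β a) = ρ b ^ e := by
    rw [h, map_mul, map_mul, map_inv, map_zpow, mul_comm, ← mul_assoc, inv_mul_cancel, one_mul]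
  rw [chE_apply, h1]
  rcases he with rfl | rfl
  · rw [zpow_one]
  · rw [zpow_neg, zpow_one, inv_eq_one]

theorem pf_KY (KN : T_KN) : T_KY := by
  intro k p k' p' β hk hp hk' hp'
  obtain ⟨h1, h2, h3⟩ := KN k p hk hp
  obtain ⟨h1', h2', h3'⟩ := KN k' p' hk' hp'
  have hP : 0 < p.natAbs := Int.natAbs_pos.2 hp
  have hP' : 0 < p'.natAbs := Int.natAbs_pos.2 hp'
  obtain ⟨P, hPe⟩ : ∃ P, P = p.natAbs := ⟨_, rfl⟩
  obtain ⟨P', hPe'⟩ : ∃ P', P' = p'.natAbs := ⟨_, rfl⟩
  rw [← hPe] at h1 h2 hP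
  rw [← hPe'] at h1' h2' hP'
  have habs : (|p| : ℤ) = P := by rw [hPe, Int.natCast_natAbs]
  have habs' : (|p'| : ℤ) = P' := by rw [hPe', Int.natCast_natAbs]
  -- the first part
  have hN : ∀ N : ℕ, 0 < N → k ∣ N → P ∣ N → k' ∣ N → P' ∣ N →
      (N - k + 1) * (N - P + 1) = (N - k' + 1) * (N - P' + 1) := by
    intro N hN a b a' b'
    rw [← h1 N hN a b, ← h1' N hN a' b']
    symm
    refine Nat.card_congr (Equiv.subtypeEquiv (chE β) fun ρ => ?_)
    rw [chE_pow, chE_one, chE_jmp]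
  have hZ : ∀ N : ℕ, 0 < N → k ∣ N → P ∣ N → k' ∣ N → P' ∣ N →
      ((N : ℤ) - k + 1) * ((N : ℤ) - P + 1) = ((N : ℤ) - k' + 1) * ((N : ℤ) - P' + 1) := by
    intro N hN0 a b a' b'
    have h4 := hN N hN0 a b a' b'
    have h5 := congrArg (fun n : ℕ => (n : ℤ)) h4
    simp only [Nat.cast_mul, Nat.cast_add, Nat.cast_one] at h5
    rw [Nat.cast_sub (Nat.le_of_dvd hN0 a), Nat.cast_sub (Nat.le_of_dvd hN0 b),
      Nat.cast_sub (Nat.le_of_dvd hN0 a'), Nat.cast_sub (Nat.le_of_dvd hN0 b')] at h5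
    exact h5
  have hM : 0 < k * P * (k' * P') := by positivity
  obtain ⟨M, hMe⟩ : ∃ M, M = k * P * (k' * P') := ⟨_, rfl⟩
  have d1 : k ∣ M := ⟨P * (k' * P'), by rw [hMe]; ring⟩
  have d2 : P ∣ M := ⟨k * (k' * P'), by rw [hMe]; ring⟩
  have d3 : k' ∣ M := ⟨k * P * P', by rw [hMe]; ring⟩
  have d4 : P' ∣ M := ⟨k * P * k', by rw [hMe]; ring⟩
  rw [← hMe] at hM
  have e1 := hZ M hM d1 d2 d3 d4
  have e2 := hZ (2 * M) (by omega) (Dvd.dvd.mul_left d1 2) (Dvd.dvd.mul_left d2 2)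
    (Dvd.dvd.mul_left d3 2) (Dvd.dvd.mul_left d4 2)
  have hM0 : (M : ℤ) ≠ 0 := by
    have : (0 : ℤ) < M := by exact_mod_cast hM
    exact this.ne'
  push_cast at e2
  have e3 : (k : ℤ) + P = k' + P' := by
    apply mul_left_cancel₀ hM0
    linear_combination e1 - e2
  have e4 : (k : ℤ) * P = k' * P' := by
    linear_combination e1 + (M + 1) * e3
  have e5 : ((k : ℤ) - k') * ((k : ℤ) - P') = 0 := by
    linear_combination (k : ℤ) * e3 - e4
  have main : (k = k' ∧ P = P') ∨ (k = P' ∧ P = k') := by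
    rcases mul_eq_zero.1 e5 with h | h
    · left
      omega
    · right
      omega
  have cnt : ∀ (i j : Bool) (g : KP k' p' p') (e : ℤ), (e = 1 ∨ e = -1) →
      β (kg i) = g * kg j ^ e * g⁻¹ →
      Nat.card {ρ : KP k p p →* ℂˣ // ρ (kg i) = 1 ∧ (ρ = 1 ∨ Jmp ρ)} =
      Nat.card {ρ : KP k' p' p' →* ℂˣ // ρ (kg j) = 1 ∧ (ρ = 1 ∨ Jmp ρ)} := by
    intro i j g e he h
    symm
    refine Nat.card_congr (Equiv.subtypeEquiv (chE β) fun ρ => ?_)
    rw [chE_conj β ρ (kg i) (kg j) g e he h, chE_one, chE_jmp]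
  rw [habs, habs']
  refine ⟨?_, ?_⟩
  · rcases main with ⟨a, b⟩ | ⟨a, b⟩
    · left
      exact ⟨a, by exact_mod_cast b⟩
    · right
      exact ⟨by exact_mod_cast a, by exact_mod_cast b⟩
  · intro i j g e he h
    have c := cnt i j g e he h
    rcases i with _ | _ <;> rcases j with _ | _
    · rw [h3, h3'] at c
      refine ⟨fun _ => ⟨by omega, by exact_mod_cast (by omega : P = P')⟩, fun h => absurd rfl h⟩
    · rw [h3, h2'] at c
      refine ⟨fun h => absurd h (by simp), fun _ => ⟨by exact_mod_cast (by omega : k = P'),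
        by exact_mod_cast (by omega : P = k')⟩⟩
    · rw [h2, h3'] at c
      refine ⟨fun h => absurd h (by simp), fun _ => ⟨by exact_mod_cast (by omega : k = P'),
        by exact_mod_cast (by omega : P = k')⟩⟩
    · rw [h2, h2'] at c
      refine ⟨fun _ => ⟨by omega, by exact_mod_cast (by omega : P = P')⟩, fun h => absurd rfl h⟩

end Pool.Agent.H16.ORS
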